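import Pool.Agent.Helper83.RK.Defs
import Pool.Agent.Rank.LocalSetup

/-!
# The local set-up for powers of the `p`-adic integers
-/

set_option autoImplicit false
set_option linter.unusedSectionVars false
set_option linter.unusedVariables false

open Set MeasureTheory Metric Filter Topology
open scoped NNReal ENNReal

namespace Pool.Agent.Helper83.RK

open Pool.Agent.Helper3.HS Pool.Agent.Rank

variable {d m p : ℕ} [hp : Fact p.Prime] [MeasurableSpace ℤ_[p]] [BorelSpace ℤ_[p]]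
  {ν : Measure (Gp (m + 1) p)} [IsProbabilityMeasure ν] [ν.IsAddHaarMeasure]
  {X : Type*} [MetricSpace X] [AddAction (Gp (m + 1) p) X] [ContinuousVAdd (Gp (m + 1) p) X]

/-- The action of `p ^ k` times the group in a small ball of a chart, when the elements not
divisible by `p` have no fixed points. -/
theorem exists_PD (ν : Measure (Gp (m + 1) p)) [IsProbabilityMeasure ν] [ν.IsAddHaarMeasure]
    {W : Set X} (hW : IsOpen W) {x₀ : X} (hx₀ : x₀ ∈ W)
    (e : OpenPartialHomeomorph X (Fin (d + 1) → ℝ)) (he : x₀ ∈ e.source)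
    (hfix : ∀ K : ℕ, ∃ k, K ≤ k ∧ ∀ a : Gp (m + 1) p, Prim a → ∀ x ∈ W,
      (((p : ℤ_[p]) ^ k • a : Gp (m + 1) p) +ᵥ x) ≠ x) {σ₀ : ℝ} (hσ₀ : 0 < σ₀) :
    ∃ (k : ℕ) (σ : ℝ) (P : PD (d + 1) (m + 1) p)
      (Γ : Gp (m + 1) p → (Fin (d + 1) → ℝ) → (Fin (d + 1) → ℝ)), 0 < σ ∧ σ ≤ σ₀ ∧
      closedBall (e x₀) σ ⊆ e.target ∧ P.U ⊆ closedBall (e x₀) σ ∧
      Continuous (fun q : Gp (m + 1) p × (Fin (d + 1) → ℝ) => Γ q.1 q.2) ∧
      (∀ a, ∀ u ∈ closedBall (e x₀) σ, e.symm u ∈ W ∧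
        ((p : ℤ_[p]) ^ k • a : Gp (m + 1) p) +ᵥ e.symm u ∈ e.source ∧
        Γ a u = e (((p : ℤ_[p]) ^ k • a : Gp (m + 1) p) +ᵥ e.symm u)) ∧
      (∀ a, ∀ u ∈ P.U, Γ a u = P.g a u) ∧
      ∃ r > 0, ∀ y ∈ ball (e x₀) r,
        (∀ x ∈ closure P.U, (∫ a, Γ a x ∂ν) = y → x ∈ P.U) ∧
        HasDeg (volume : Measure (Fin (d + 1) → ℝ)) P.U (fun x => ∫ a, Γ a x ∂ν) y 1 := by
  have hcompact : CompactSpace (Gp (m + 1) p) := inferInstance
  obtain ⟨s, hs, hsσ, hB, hBW, hev⟩ :=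
    exists_ball (B := Gp (m + 1) p) (e := e) he (hW.mem_nhds hx₀) hσ₀
  obtain ⟨k₀, hk₀⟩ := eventually_pow_smul hev
  obtain ⟨k, hk, hfree⟩ := hfix k₀
  set c := e x₀ with hc
  set τ : Gp (m + 1) p → X → X := fun a x => ((p : ℤ_[p]) ^ k • a : Gp (m + 1) p) +ᵥ x with hτ
  have hτc : Continuous (fun q : Gp (m + 1) p × X => τ q.1 q.2) := by
    have h1 : Continuous (fun q : Gp (m + 1) p × X => ((p : ℤ_[p]) ^ k • q.1 : Gp (m + 1) p)) :=
      (continuous_const_smul _).comp continuous_fst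
    exact h1.vadd continuous_snd
  have hτ0 : ∀ x, τ 0 x = x := fun x => by
    rw [hτ]
    simp only
    rw [smul_zero, zero_vadd]
  have hτadd : ∀ a b x, τ (a + b) x = τ a (τ b x) := fun a b x => by
    rw [hτ]
    simp only
    rw [smul_add, add_vadd]
  have hsrc : ∀ a : Gp (m + 1) p, ∀ u ∈ closedBall c s, τ a (e.symm u) ∈ e.source :=
    fun a u hu => (hk₀ k hk a u hu).1
  have hcl : ∀ a : Gp (m + 1) p, ∀ u ∈ closedBall c s, dist (e (τ a (e.symm u))) u < s / 8 :=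
    fun a u hu => (hk₀ k hk a u hu).2.2
  obtain ⟨D, hDU, hDg, hD1, hD2, hD3⟩ := local_setup hs hτc hτ0 hτadd hB hsrc hcl
  have hDUc : D.U ⊆ closedBall c s := hD2.trans ball_subset_closedBall
  have hDgval : ∀ a, ∀ u ∈ closedBall c s, D.g a u = e (τ a (e.symm u)) := by
    intro a u hu
    rw [hDg]
    exact cact_of_mem hs a hu
  set P : PD (d + 1) (m + 1) p :=
    { U := D.U
      g := D.g
      hU := D.hU
      hUb := D.hUb
      hg := fun a => D.hg.comp (f := fun x : Fin (d + 1) → ℝ =>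
        ((a, x) : Gp (m + 1) p × (Fin (d + 1) → ℝ))) (by fun_prop)
      hgj := D.hg.continuousOn
      hgU := D.hgU
      hg0 := D.hg0
      hgadd := D.hgadd
      hpos := D.hpos
      hfree := by
        intro a ha u hu heq
        have huc := hDUc hu
        rw [hDgval a u huc] at heq
        apply hfree a ha (e.symm u) (hBW u huc)
        have h1 := congrArg e.symm heq
        rwa [e.left_inv (hsrc a u huc)] at h1 } with hP
  refine ⟨k, s, P, D.g, hs, hsσ, hB, hDUc, D.hg, ?_, fun a u hu => rfl, 3 * s / 4,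
    by positivity, ?_⟩
  · intro a u hu
    exact ⟨hBW u hu, hsrc a u hu, hDgval a u hu⟩
  · intro y hy
    refine ⟨?_, D.avg_deg ν hs hD1 hD2 hD3 hy⟩
    intro x hx heq
    have hxc : x ∈ closedBall c s := closure_minimal hDUc isClosed_closedBall hx
    have h4 : dist (D.avg ν x) x ≤ s / 8 := D.avg_dist ν (fun a => (hD3 a x hxc).le)
    apply hD1
    have h5 : D.avg ν x = y := heq
    rw [h5, dist_comm] at h4
    rw [mem_ball] at hy ⊢
    have h6 := dist_triangle x y c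
    linarith

end Pool.Agent.Helper83.RK
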